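import Pool.Agent.BEW.StmtsS

/-!
# Squad BEW, row REP: bounded representatives
-/

set_option autoImplicit false

namespace Pool.Agent.BEW.H70

open Set Filter Topology MeasureTheory
open scoped InnerProductSpace ENNReal NNReal
open Pool.Agent.BE01 Pool.Agent.BEL Pool.Agent.BEG Pool.Agent.BEH Pool.Agent.BER Pool.Agent.BEW

noncomputable section

theorem rep_sg_le {d : ℕ} {β : ℝ} (hd : 2 ≤ d) (hβ : 0 < β) (m : ℕ) {r : ℝ}
    (hr : r ∈ Ioo β (β + Real.pi)) : |sg d β m r| ≤ 1 := by
  unfold sg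
  have h1 : 1 ≤ r / β := by
    rw [le_div_iff₀ hβ]
    linarith [hr.1]
  have hd' : (1 : ℝ) ≤ (d : ℝ) := by exact_mod_cast (by omega : 1 ≤ d)
  have h2 : (r / β) ^ (-(((d : ℝ) - 1) / 2)) ≤ 1 :=
    Real.rpow_le_one_of_one_le_of_nonpos h1 (by linarith)
  have h3 : 0 ≤ (r / β) ^ (-(((d : ℝ) - 1) / 2)) := Real.rpow_nonneg (by linarith) _
  have h4 : Real.sqrt (2 / Real.pi) ≤ 1 := by
    refine Real.sqrt_le_iff.2 ⟨zero_le_one, ?_⟩
    rw [one_pow, div_le_one Real.pi_pos]
    linarith [Real.pi_gt_three]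
  have h5 : 0 ≤ Real.sqrt (2 / Real.pi) := Real.sqrt_nonneg _
  have h6 := Real.abs_sin_le_one (((m : ℝ) + 1) * (r - β))
  rw [abs_mul, abs_mul, abs_of_nonneg h3, abs_of_nonneg h5]
  have h7 : Real.sqrt (2 / Real.pi) * |Real.sin (((m : ℝ) + 1) * (r - β))| ≤ 1 :=
    mul_le_one₀ h4 (abs_nonneg _) h6
  exact mul_le_one₀ h2 (mul_nonneg h5 (abs_nonneg _)) h7

theorem rep_sg_meas (d : ℕ) (β : ℝ) (m : ℕ) : Measurable (sg d β m) := by
  unfold sg
  exact ((measurable_id.div_const β).pow_const _).mul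
    ((Real.measurable_sin.comp ((measurable_id.sub_const β).const_mul _)).const_mul _)

/-- **REP**. -/
theorem rep (hNUF : NufStmt) : RepStmt := by
  intro d β ε s e hd hβ hε hε1 hs hc
  have hae : ∀ᵐ r ∂(nu d β), r ∈ Ioo β (β + Real.pi) := (hNUF d β hβ).2.2.1
  have hsum : ∀ k, Summable (fun m => |⟪s m, e k⟫_ℝ - if m = k then 1 else 0|) := fun k =>
    summable_of_sum_range_le (fun m => abs_nonneg _) (hc k)
  have htsum : ∀ k, ∑' m, |⟪s m, e k⟫_ℝ - if m = k then 1 else 0| ≤ ε := fun k =>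
    (hsum k).tsum_le_of_sum_range_le (hc k)
  set G : ℕ → ℕ → ℝ → ℝ := fun k m => (Ioo β (β + Real.pi)).indicator
    (fun r => (⟪s m, e k⟫_ℝ - if m = k then 1 else 0) * sg d β m r) with hG
  have hGb : ∀ k m r, ‖G k m r‖ ≤ |⟪s m, e k⟫_ℝ - if m = k then 1 else 0| := by
    intro k m r
    by_cases hr : r ∈ Ioo β (β + Real.pi)
    · have : G k m r = (⟪s m, e k⟫_ℝ - if m = k then 1 else 0) * sg d β m r :=
        indicator_of_mem hr _
      rw [this, Real.norm_eq_abs, abs_mul]
      exact mul_le_of_le_one_right (abs_nonneg _) (rep_sg_le hd hβ m hr)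
    · have : G k m r = 0 := indicator_of_notMem hr _
      rw [this, norm_zero]
      exact abs_nonneg _
  have hGs : ∀ k r, Summable (fun m => G k m r) := fun k r =>
    Summable.of_norm_bounded (hsum k) (fun m => hGb k m r)
  have hGt : ∀ k r, |∑' m, G k m r| ≤ ε := fun k r =>
    (tsum_of_norm_bounded (hsum k).hasSum (fun m => hGb k m r)).trans (htsum k)
  have hGm : ∀ k m, Measurable (G k m) := fun k m =>
    ((rep_sg_meas d β m).const_mul _).indicator measurableSet_Ioo
  refine ⟨fun k r => (∑' m, G k m r) + (Ioo β (β + Real.pi)).indicator (sg d β k) r,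
    fun k => ?_, fun k => ?_, fun k r hr => ?_, fun k r => ?_⟩
  · refine Measurable.add ?_ ((rep_sg_meas d β k).indicator measurableSet_Ioo)
    refine measurable_of_tendsto_metrizable
      (f := fun n r => ∑ m ∈ Finset.range n, G k m r) (fun n => ?_) ?_
    · exact Finset.measurable_sum _ fun m _ => hGm k m
    · exact tendsto_pi_nhds.2 fun r => (hGs k r).hasSum.tendsto_sum_nat
  · have hP : Tendsto (fun n => ∑ m ∈ Finset.range n, ⟪s m, e k⟫_ℝ • s m) atTop (𝓝 (e k)) := by
      have h1 := (s.hasSum_repr (e k)).tendsto_sum_nat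
      refine h1.congr fun n => Finset.sum_congr rfl fun m _ => ?_
      rw [s.repr_apply_apply]
    have hPn : ∀ n, (∑ m ∈ Finset.range n, ⟪s m, e k⟫_ℝ • s m : Lp ℝ 2 (nu d β)) =ᵐ[nu d β]
        fun r => ∑ m ∈ Finset.range n, ⟪s m, e k⟫_ℝ * sg d β m r := by
      intro n
      induction n with
      | zero =>
        simp only [Finset.range_zero, Finset.sum_empty]
        exact Lp.coeFn_zero _ _ _
      | succ n ih =>
        rw [Finset.sum_range_succ]
        filter_upwards [Lp.coeFn_add (∑ m ∈ Finset.range n, ⟪s m, e k⟫_ℝ • s m)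
          (⟪s n, e k⟫_ℝ • s n), ih, Lp.coeFn_smul (⟪s n, e k⟫_ℝ) (s n), hs n] with r h1 h2 h3 h4
        rw [h1, Finset.sum_range_succ, Pi.add_apply, h2, h3, Pi.smul_apply, smul_eq_mul, h4]
    have hPa := ae_all_iff.2 hPn
    obtain ⟨ns, hns, hlim⟩ := (tendstoInMeasure_of_tendsto_Lp hP).exists_seq_tendsto_ae
    filter_upwards [hPa, hlim, hae] with r h1 h2 hr
    have h3 : HasSum (fun m => ⟪s m, e k⟫_ℝ * sg d β m r)
        ((∑' m, G k m r) + (Ioo β (β + Real.pi)).indicator (sg d β k) r) := by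
      have a1 := (hGs k r).hasSum
      have a2 : HasSum (fun m => (if m = k then (1 : ℝ) else 0) * sg d β m r)
          ((Ioo β (β + Real.pi)).indicator (sg d β k) r) := by
        rw [indicator_of_mem hr]
        have a3 := hasSum_single (f := fun m => (if m = k then (1 : ℝ) else 0) * sg d β m r) k
          (fun m hm => by rw [if_neg hm, zero_mul])
        rwa [if_pos rfl, one_mul] at a3
      have a4 := a1.add a2
      have a5 : (fun m => ⟪s m, e k⟫_ℝ * sg d β m r) =
          fun m => G k m r + (if m = k then (1 : ℝ) else 0) * sg d β m r := by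
        funext m
        have a6 : G k m r = (⟪s m, e k⟫_ℝ - if m = k then 1 else 0) * sg d β m r :=
          indicator_of_mem hr _
        rw [a6]
        ring
      rw [a5]
      exact a4
    have h4 := (h3.tendsto_sum_nat).comp hns.tendsto_atTop
    refine tendsto_nhds_unique h2 (h4.congr fun i => ?_)
    exact (h1 (ns i)).symm
  · show |(∑' m, G k m r) + (Ioo β (β + Real.pi)).indicator (sg d β k) r - sg d β k r| ≤ ε
    rw [indicator_of_mem hr, add_sub_cancel_right]
    exact hGt k r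
  · show |(∑' m, G k m r) + (Ioo β (β + Real.pi)).indicator (sg d β k) r| ≤ 2
    have h1 : |(Ioo β (β + Real.pi)).indicator (sg d β k) r| ≤ 1 := by
      by_cases hr : r ∈ Ioo β (β + Real.pi)
      · rw [indicator_of_mem hr]
        exact rep_sg_le hd hβ k hr
      · rw [indicator_of_notMem hr, abs_zero]
        exact zero_le_one
    have h2 := abs_add_le (∑' m, G k m r) ((Ioo β (β + Real.pi)).indicator (sg d β k) r)
    have h3 := hGt k r
    linarith

end

end Pool.Agent.BEW.H70

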